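import Pool.Agent.H121.UE.Iface
import Pool.Agent.H410.ME.TopB

/-! UE-TOPZ: the upper band edge of the layered model, with an arbitrary upper end of the support. -/

set_option autoImplicit false
set_option linter.unusedSectionVars false

open scoped BigOperators InnerProductSpace Topology ENNReal
open Filter MeasureTheory ProbabilityTheory

namespace Pool.Agent.H734.UE

open Pool.Agent.Y662.TR (LL Cf Mw dv hu lmk lmk_apply ll_sum ll_inner clp)
open Pool.Agent.TH369.AN (Rz)
open Pool.Agent.H987.Z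
open Pool.Agent.H121.Z987 (wt HH HH_apply)
open Pool.Agent.H121.ME
open Pool.Agent.H121.UE
open Pool.Agent.H410.ME

section main

theorem clp_ge' {b lam κ v : ℝ} (hb : b ≤ 1) (hl : 0 < lam) (hκ : 0 < κ) (hv : b - κ < v) :
    lam * (b - κ) ≤ clp lam (lam * v) := by
  unfold clp
  rw [abs_of_pos hl]
  refine le_max_of_le_right (le_min ?_ ?_)
  · nlinarith
  · exact mul_le_mul_of_nonneg_left hv.le hl.le

theorem topZ' : S_topZ' := by
  classical
  intro d F _ _ φ c K hd hc hcs hfin hφ hK μ _ hμ1 b hμ lam hlam e0 he0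
  have hb1 : b ≤ 1 := by
    by_contra hcon
    push Not at hcon
    have h1 := hμ (b - 1) (by linarith)
    rw [sub_sub_cancel] at h1
    have h2 : μ (Set.Ioi (1 : ℝ)) = 0 := by
      refine measure_mono_null (fun v hv => ?_) (ae_iff.1 hμ1)
      intro h
      exact absurd (abs_le.1 h).2 (not_le.2 hv)
    exact absurd h1 (by rw [h2]; exact lt_irrefl _)
  -- the parameters
  obtain ⟨g, hg⟩ : ∃ g, g = 4 * (d : ℝ) + ∑' q, c q + lam * b - e0 := ⟨_, rfl⟩
  have hg0 : 0 < g := by rw [hg]; linarith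
  obtain ⟨κ, hκ⟩ : ∃ κ, κ = g / (4 * (1 + lam)) := ⟨_, rfl⟩
  have hκ0 : 0 < κ := by rw [hκ]; positivity
  have hκ1 : κ * (1 + lam) = g / 4 := by
    rw [hκ]
    field_simp
  obtain ⟨L, hL⟩ := exists_nat_gt (4 * (d : ℝ) / g)
  have hL0 : (0 : ℝ) < L := lt_of_le_of_lt (by positivity) hL
  have hL1 : 0 < L := by exact_mod_cast hL0
  have hL2 : 2 * (d : ℝ) / L < g / 2 := by
    rw [div_lt_iff₀ hg0] at hL
    rw [div_lt_iff₀ hL0]
    linarith
  -- the finite group
  obtain ⟨S, hS⟩ : ∃ S : Finset F, ∑' q, c q - κ < ∑ q ∈ S, c q := by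
    have h : Tendsto (fun s : Finset F => ∑ q ∈ s, c q) atTop (𝓝 (∑' q, c q)) := hcs.hasSum
    exact (h.eventually (lt_mem_nhds (show ∑' q, c q - κ < ∑' q, c q by linarith))).exists
  have hR : (⋃ q ∈ S, Set.range fun x => φ x q).Finite :=
    S.finite_toSet.biUnion fun q _ => hφ q
  obtain ⟨R, hRe⟩ : ∃ R : Finset F, (R : Set F) = ⋃ q ∈ S, Set.range fun x => φ x q :=
    ⟨hR.toFinset, hR.coe_toFinset⟩
  obtain ⟨H, hH⟩ : ∃ H, H = Subgroup.closure (R : Set F) := ⟨_, rfl⟩
  have hHf : (H : Set F).Finite := by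
    rw [hH]
    exact hfin R
  obtain ⟨F0, hF0⟩ : ∃ F0 : Finset F, ∀ f, f ∈ F0 ↔ f ∈ H :=
    ⟨hHf.toFinset, fun f => by rw [Set.Finite.mem_toFinset]; rfl⟩
  have hSH : ∀ q ∈ S, ∀ x, φ x q ∈ H := by
    intro q hq x
    rw [hH]
    refine Subgroup.subset_closure ?_
    rw [hRe]
    exact Set.mem_biUnion hq ⟨x, rfl⟩
  -- the boxes
  let i0 : Fin d := ⟨0, hd⟩
  let a : ℕ → Fin d → ℤ := fun j => fun i => if i = i0 then (j : ℤ) * L else 0
  let Λ : ℕ → Finset ((Fin d → ℤ) × F) := fun j => bx (a j) L ×ˢ F0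
  have hdis : Pairwise fun i j => Disjoint (Λ i) (Λ j) := by
    intro j j' hjj
    rw [Finset.disjoint_left]
    rintro ⟨x, f⟩ h1 h2
    have h3 := mem_bx.1 (Finset.mem_product.1 h1).1 i0
    have h4 := mem_bx.1 (Finset.mem_product.1 h2).1 i0
    simp only [a, if_true] at h3 h4
    have h5 : (j : ℤ) < j' + 1 := by
      by_contra h
      push Not at h
      nlinarith
    have h6 : (j' : ℤ) < j + 1 := by
      by_contra h
      push Not at h
      nlinarith
    exact hjj (by omega)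
  have hcard : ∀ j, (Λ j).card ≤ L ^ d * F0.card := by
    intro j
    simp only [Λ]
    rw [Finset.card_product, card_bx]
  have hgood := good_box μ (Set.Ioi (b - κ)) measurableSet_Ioi (hμ κ hκ0) Λ hdis _ hcard
  filter_upwards [hgood] with ω hω
  obtain ⟨j, hj⟩ := hω
  refine ⟨tf (Λ j), ?_⟩
  rw [tf_norm, tf_inner]
  have h1 : ∀ p ∈ Λ j, (((sg p.1 : ℝ) : ℂ) * HH K lam ω (tf (Λ j)) p).re =
      (∑ i : Fin d, (2 + (if p.1 + Pi.single i 1 ∈ bx (a j) L then 1 else 0) +
        (if p.1 - Pi.single i 1 ∈ bx (a j) L then 1 else 0) : ℝ)) +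
        (∑' q : F, (if φ (Multiplicative.ofAdd p.1) q ∈ H then c q else 0)) +
        clp lam (lam * ω p) := by
    rintro ⟨x, f⟩ hp
    obtain ⟨hx, hf⟩ := Finset.mem_product.1 hp
    rw [HH_apply, mul_add, tf_kin φ c K hK (bx (a j) L) F0 H hF0 x hx f hf, tf_apply, if_pos hp]
    have h2 : ((sg x : ℝ) : ℂ) * (((clp lam (lam * ω (x, f)) : ℝ) : ℂ) * ((sg x : ℝ) : ℂ)) =
        ((clp lam (lam * ω (x, f)) : ℝ) : ℂ) := by
      have hs : ((sg x : ℝ) : ℂ) * ((sg x : ℝ) : ℂ) = 1 := by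
        rw [← Complex.ofReal_mul, sg_sq, Complex.ofReal_one]
      linear_combination ((clp lam (lam * ω (x, f)) : ℝ) : ℂ) * hs
    rw [h2, ← Complex.ofReal_add, Complex.ofReal_re]
  rw [Complex.re_sum, Finset.sum_congr rfl h1]
  have h3 : ∀ p ∈ Λ j, (∑ i : Fin d, (2 + (if p.1 + Pi.single i 1 ∈ bx (a j) L then 1 else 0) +
        (if p.1 - Pi.single i 1 ∈ bx (a j) L then 1 else 0) : ℝ)) +
        ((∑' q, c q - κ) + lam * (b - κ)) ≤
      (∑ i : Fin d, (2 + (if p.1 + Pi.single i 1 ∈ bx (a j) L then 1 else 0) +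
        (if p.1 - Pi.single i 1 ∈ bx (a j) L then 1 else 0) : ℝ)) +
        (∑' q : F, (if φ (Multiplicative.ofAdd p.1) q ∈ H then c q else 0)) +
        clp lam (lam * ω p) := by
    intro p hp
    have h4 := clp_ge' hb1 hlam hκ0 (hj p hp)
    have h5 : ∑' q, c q - κ ≤ ∑' q : F, (if φ (Multiplicative.ofAdd p.1) q ∈ H then c q else 0) := by
      have h6 : Summable fun q : F => if φ (Multiplicative.ofAdd p.1) q ∈ H then c q else 0 := by
        refine Summable.of_nonneg_of_le (fun q => ?_) (fun q => ?_) hcs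
        · split_ifs
          · exact hc q
          · exact le_rfl
        · split_ifs
          · exact le_rfl
          · exact hc q
      refine hS.le.trans ?_
      have h7 := h6.sum_le_tsum S fun q _ => by
        split_ifs
        · exact hc q
        · exact le_rfl
      refine le_trans (Finset.sum_le_sum fun q hq => ?_) h7
      rw [if_pos (hSH q hq _)]
    linarith
  refine lt_of_lt_of_le ?_ (Finset.sum_le_sum h3)
  rw [Finset.sum_add_distrib, Finset.sum_const, nsmul_eq_mul]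
  have h8 : ∑ p ∈ Λ j, (∑ i : Fin d, (2 + (if p.1 + Pi.single i 1 ∈ bx (a j) L then 1 else 0) +
        (if p.1 - Pi.single i 1 ∈ bx (a j) L then 1 else 0) : ℝ)) =
      F0.card * ∑ x ∈ bx (a j) L, ∑ i : Fin d,
        (2 + (if x + Pi.single i 1 ∈ bx (a j) L then 1 else 0) +
        (if x - Pi.single i 1 ∈ bx (a j) L then 1 else 0) : ℝ) := by
    simp only [Λ]
    rw [Finset.sum_product, Finset.mul_sum]
    refine Finset.sum_congr rfl fun x _ => ?_
    refine (Finset.sum_congr rfl (g := fun _ => ∑ i : Fin d,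
      (2 + (if x + Pi.single i 1 ∈ bx (a j) L then 1 else 0) +
        (if x - Pi.single i 1 ∈ bx (a j) L then 1 else 0) : ℝ)) fun y _ => rfl).trans ?_
    rw [Finset.sum_const, nsmul_eq_mul]
  rw [h8]
  have h9 := nb_sum (a j) L hL1
  have hF1 : 0 < F0.card := Finset.card_pos.2 ⟨1, (hF0 1).2 H.one_mem⟩
  have hbx1 : 0 < (bx (a j) L).card := by
    rw [card_bx]
    positivity
  have hN : ((Λ j).card : ℝ) = F0.card * (bx (a j) L).card := by
    simp only [Λ]
    rw [Finset.card_product]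
    push_cast
    ring
  have hF1' : (0 : ℝ) < F0.card := by exact_mod_cast hF1
  have hbx1' : (0 : ℝ) < (bx (a j) L).card := by exact_mod_cast hbx1
  have h10 : (F0.card : ℝ) * ((bx (a j) L).card * (4 * d - 2 * d / L)) ≤
      F0.card * ∑ x ∈ bx (a j) L, ∑ i : Fin d,
        (2 + (if x + Pi.single i 1 ∈ bx (a j) L then 1 else 0) +
        (if x - Pi.single i 1 ∈ bx (a j) L then 1 else 0) : ℝ) :=
    mul_le_mul_of_nonneg_left h9 hF1'.le
  refine lt_of_lt_of_le ?_ (add_le_add_left h10 _)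
  rw [hN]
  have h11 : e0 < (4 * d - 2 * d / L) + ((∑' q, c q - κ) + lam * (b - κ)) := by
    have : κ + lam * κ = g / 4 := by rw [← hκ1]; ring
    have h12 : e0 = 4 * (d : ℝ) + ∑' q, c q + lam * b - g := by rw [hg]; ring
    rw [h12]
    nlinarith
  have h13 : 0 < (F0.card : ℝ) * (bx (a j) L).card := mul_pos hF1' hbx1'
  nlinarith

end main

end Pool.Agent.H734.UE
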